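import Pool.Agent.W619.Y.LA1
import Pool.Agent.W619.TW.GT

/-! Mixed quotients of products of a variety and open curves: log general type, or covered by
images of open curves which are not of log general type, or by images of the variety. -/

set_option autoImplicit false
set_option linter.overlappingInstances false
set_option linter.unusedSectionVars false

universe u v

open Polynomial FF IntermediateField Pool.Agent.W619.PQ Pool.Agent.W619.PL Pool.Agent.W619.TW
  Pool.Agent.W619.X Pool.Agent.W619.Y

namespace Pool.Agent.Y115.GT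

open Pool.Agent.W603.LV

section

variable (k : Type u) (K : Type v) [Field k] [Field K] [Algebra k K]

/-- The variety `U` of dimension `n` with function field `K`, where `Bd` is the set of places whose
centre is not on `U`, is covered by images of the projective variety `Y` with function field `R`:
there is a dominant rational map to `U` from the product of `Y` and a variety `V` of dimension
`n - dim Y` (with function field `N`), which is a morphism to `U` on the generic fibre over `V`: no
place of the function field of the product which is trivial on `N` is over a place in the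
boundary. -/
def IsCoveredBy (n : ℕ) (Bd : Place k K → Prop) (R : Type v) [Field R] [Algebra k R] : Prop :=
  ∃ (L : Type v) (_ : Field L) (_ : Algebra k L) (N E : IntermediateField k L) (φ : K →ₐ[k] L),
    Algebra.EssFiniteType k N ∧ Nonempty (E ≃ₐ[k] R) ∧ N ⊔ E = ⊤ ∧
    Algebra.trdeg k N + Algebra.trdeg k E = n ∧ Algebra.trdeg k L = n ∧
    ∀ (w : Place N L) (v : Place k K) (e : ℕ), 0 < e → (∀ f : K, w.ord (φ f) = e * v.ord f) →
      ¬ Bd v

end

section

variable {k L : Type*} [Field k] [Field L] [Algebra k L]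

/-- The product of `Y` and the curves other than `i0`. -/
def MB {n : ℕ} (M : IntermediateField k L) (F : Fin n → IntermediateField k L) (i0 : Fin n) :
    IntermediateField k L := M ⊔ ⨆ j : {j : Fin n // j ≠ i0}, F j.1

theorem le_MB {n : ℕ} (M : IntermediateField k L) (F : Fin n → IntermediateField k L) {i0 j : Fin n}
    (hj : j ≠ i0) : F j ≤ MB M F i0 :=
  le_trans (le_iSup (fun j : {j : Fin n // j ≠ i0} => F j.1) ⟨j, hj⟩) le_sup_right

theorem cur_MB {d n : ℕ} (M : IntermediateField k L) (F : Fin n → IntermediateField k L)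
    [∀ i, IsFF k (F i)] (hd : Algebra.trdeg k M = d)
    (hn : Algebra.trdeg k L = (d + n : ℕ)) (hsup : M ⊔ (⨆ i, F i) = ⊤) (i0 : Fin n) :
    Cur (MB M F i0) (F i0) := by
  classical
  let ι := {j : Fin n // j ≠ i0}
  refine ⟨inferInstance, ?_, ?_⟩
  · intro x0 hx0 halg
    choose y hy using fun j => IsFF.exists_transcendental (k := k) (K := F j)
    let x : ∀ j, F j := Function.update y i0 x0
    have hxi : x i0 = x0 := Function.update_self i0 x0 y
    have hx : ∀ j, Transcendental k (x j) := by
      intro j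
      by_cases h : j = i0
      · subst h; rw [hxi]; exact hx0
      · rw [show x j = y j from Function.update_of_ne h x0 y]; exact hy j
    obtain ⟨s, hs⟩ := exists_isTranscendenceBasis k M
    let T : Set L := (Subtype.val '' s) ∪ Set.range fun j : ι => (x j.1 : L)
    let S : IntermediateField k L := adjoin k T
    let A : IntermediateField S L := algebraicClosure S L
    have hMA : ∀ z ∈ MB M F i0, z ∈ A := by
      have h0 : MB M F i0 ≤ A.restrictScalars k := by
        refine sup_le ?_ (iSup_le fun j z hz => ?_)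
        · intro z hz
          rw [mem_restrictScalars, mem_algebraicClosure_iff]
          exact Pool.Agent.W318.PG.URAT.alg_of_basis M s hs S
            (fun y hy => subset_adjoin k _ (Or.inl ⟨y, hy, rfl⟩)) ⟨z, hz⟩
        · rw [mem_restrictScalars, mem_algebraicClosure_iff]
          exact alg_of_mem (F j.1) (hx j.1) S (subset_adjoin k _ (Or.inr ⟨j, rfl⟩)) ⟨z, hz⟩
      intro z hz
      exact h0 hz
    let f : MB M F i0 →+* A := (algebraMap (MB M F i0) L).codRestrict A fun z => hMA z z.2
    have hx0A : (x0 : L) ∈ A := by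
      rw [mem_algebraicClosure_iff]
      have h1 : IsAlgebraic A (x0 : L) :=
        halg.ringHom_of_comp_eq f (RingHom.id L) f.injective (by ext z; rfl)
      exact h1.restrictScalars S
    have hFA : F i0 ≤ A.restrictScalars k := by
      intro z hz
      have hx0A' : (x0 : L) ∈ A.restrictScalars k := hx0A
      have h1 := alg_of_mem (F i0) hx0 (A.restrictScalars k) hx0A' ⟨z, hz⟩
      rw [mem_restrictScalars, mem_algebraicClosure_iff]
      have h2 : IsAlgebraic A z := h1
      exact h2.restrictScalars S
    have hLA : ∀ z : L, IsAlgebraic S z := by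
      have h1 : (⊤ : IntermediateField k L) ≤ A.restrictScalars k := by
        rw [← hsup]
        refine sup_le (fun z hz => hMA z ((le_sup_left : M ≤ MB M F i0) hz))
          (iSup_le fun j => ?_)
        by_cases hj : j = i0
        · subst hj
          exact hFA
        · exact fun z hz => hMA z (le_MB M F hj hz)
      intro z
      have h2 := h1 (by trivial : z ∈ (⊤ : IntermediateField k L))
      rwa [mem_restrictScalars, mem_algebraicClosure_iff] at h2
    have h4 : Algebra.IsAlgebraic (Algebra.adjoin k T) L := alg_adjoin hLA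
    have h5 := Algebra.IsAlgebraic.trdeg_le_cardinalMk k T
    rw [hn] at h5
    have h6 : Cardinal.mk (Set.range fun j : ι => (x j.1 : L)) ≤ ((n - 1 : ℕ) : Cardinal) := by
      have h7 : Cardinal.lift.{0} (Cardinal.mk (Set.range fun j : ι => (x j.1 : L))) ≤
          Cardinal.lift (Cardinal.mk ι) := Cardinal.mk_range_le_lift
      have h8 : Fintype.card ι = n - 1 := by
        rw [Fintype.card_subtype_compl, Fintype.card_fin, Fintype.card_subtype_eq]
      rw [Cardinal.mk_fintype ι, h8] at h7
      simpa using h7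
    have h6' : Cardinal.mk (Subtype.val '' s : Set L) ≤ ((d : ℕ) : Cardinal) := by
      have h7 : Cardinal.mk (Subtype.val '' s : Set L) ≤ Cardinal.mk s := Cardinal.mk_image_le
      have h8 := hs.cardinalMk_eq_trdeg
      rw [hd] at h8
      exact h7.trans h8.le
    have h7 : Cardinal.mk T ≤ ((d + (n - 1) : ℕ) : Cardinal) := by
      refine (Cardinal.mk_union_le _ _).trans ?_
      push_cast
      exact add_le_add h6' h6
    have h8 : d + n ≤ d + (n - 1) := by exact_mod_cast h5.trans h7
    have h9 : 0 < n := i0.pos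
    omega
  · rw [eq_top_iff, ← hsup]
    refine sup_le ((le_sup_left : M ≤ MB M F i0).trans le_sup_left) (iSup_le fun j => ?_)
    by_cases h : j = i0
    · subst h; exact le_sup_right
    · exact (le_MB M F h).trans le_sup_left

/-- A place which is trivial on a subfield, as a place over `k`. -/
def rk (N : IntermediateField k L) (w : Place N L) : Place k L where
  ord := w.ord
  ord_zero := w.ord_zero
  ord_mul := w.ord_mul
  ord_add := w.ord_add
  ord_const := fun {c} hc => by
    rw [IsScalarTower.algebraMap_apply k N L]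
    exact w.ord_const (by simpa using hc)
  surj := w.surj

theorem not_over (N : IntermediateField k L) (w : Place N L) {Q : IntermediateField k L}
    (hQ : Q ≤ N) (p : Place k Q) (e : ℕ) : ¬ Over (rk N w) p e := by
  intro hp
  obtain ⟨t, ht0, ht⟩ := p.surj
  have h1 : w.ord (t : L) = e := by
    have h2 := hp.2 t
    rw [ht, mul_one] at h2
    exact h2
  have h3 : w.ord (algebraMap N L ⟨t, hQ t.2⟩) = 0 := by
    apply w.ord_const
    intro h
    apply ht0
    apply Subtype.ext
    exact congrArg (fun z : N => (z : L)) h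
  have h4 : w.ord (t : L) = 0 := h3
  have h5 := hp.1
  omega

end

section

variable {k : Type v} {L : Type u} [Field k] [CharZero k] [IsAlgClosed k] [Field L] [Algebra k L]

theorem bd_up {n : ℕ} {F : Fin n → IntermediateField k L} {G : Subgroup (L ≃ₐ[k] L)} [Finite G]
    {σ : G →* Equiv.Perm (Fin n)}
    (hσ : ∀ (g : G) i, ∀ z ∈ F i, (g : L ≃ₐ[k] L) z ∈ F (σ g i))
    {B : ∀ i, Set (Place k ↥(F i ⊓ fixedField (stb G σ i)))} (hinv : BdInv G σ F B)
    (w : Place k L) (v : Place k (fixedField G)) (e : ℕ) (hwv : Over w v e)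
    (hv : BdQ G σ F B v) : BdL G σ F B w := by
  obtain ⟨w', e', hwv', hL⟩ := hv
  obtain ⟨g, hg⟩ := pCONJ k L G v w' w e' e hwv' hwv
  exact bdL_inv hσ B hinv g w' w hg hL

/-- The quotient is covered by images of the curve `i`. -/
theorem covered_mixed (d n : ℕ) (hn : Algebra.trdeg k L = (d + n : ℕ)) (M : IntermediateField k L)
    [Algebra.EssFiniteType k M] (hM : Algebra.trdeg k M = d)
    (F : Fin n → IntermediateField k L) [hF : ∀ i, IsFF k (F i)] (hsup : M ⊔ (⨆ i, F i) = ⊤)
    (G : Subgroup (L ≃ₐ[k] L)) [Finite G] (σ : G →* Equiv.Perm (Fin n))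
    (hσ : ∀ (g : G) i, ∀ z ∈ F i, (g : L ≃ₐ[k] L) z ∈ F (σ g i))
    (B : ∀ i, Set (Place k ↥(F i ⊓ fixedField (stb G σ i)))) (hinv : BdInv G σ F B) (i : Fin n)
    (hlow : IsLow (F i) (TT (F i) inf_le_left (B i))) :
    IsLowCovered k (fixedField G) (d + n) (BdQ G σ F B) := by
  have hcur := cur_MB M F hM hn hsup i
  have hFF : IsFF (MB M F i) L := hcur.isFF
  refine ⟨L, inferInstance, inferInstance, MB M F i, F i, TT (F i) inf_le_left (B i),
    (fixedField G).val, ?_, ?_, hF i, hcur.sup, hn, hlow, ?_⟩
  · exact essFiniteType_iff.2 (fg_sup (essFiniteType_iff.1 inferInstance)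
      (fg_iSup fun j => essFiniteType_iff.1 (IsFF.ess)))
  · rw [← hn, ← trdeg_add_eq k (MB M F i) (A := L), hFF.trdeg]
  · intro w hw v e he hwv hv
    have h1 : Over (rk (MB M F i) w) v e := ⟨he, hwv⟩
    obtain ⟨j, p, hp, a, ha⟩ := bd_up hσ hinv _ v e h1 hv
    by_cases hj : j = i
    · subst hj
      obtain ⟨q, b, c, hq1, hq2⟩ := pREST k L (F j) (F j ⊓ fixedField (stb G σ j)) inf_le_left
        (rk (MB M F j) w) p a ha
      exact hw q ⟨p, hp, c, hq2⟩ b hq1.1 hq1.2
    · exact not_over (MB M F i) w (inf_le_left.trans (le_MB M F hj)) p a ha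

theorem trdeg_iSup (d n : ℕ) (hn : Algebra.trdeg k L = (d + n : ℕ)) (M : IntermediateField k L)
    (hM : Algebra.trdeg k M = d)
    (F : Fin n → IntermediateField k L) [hF : ∀ i, IsFF k (F i)] (hsup : M ⊔ (⨆ i, F i) = ⊤) :
    Algebra.trdeg k ↥(⨆ i, F i) = (n : ℕ) := by
  choose x hx using fun j => IsFF.exists_transcendental (k := k) (K := F j)
  obtain ⟨y, hy⟩ := exists_fin_basis d hM
  have halg : Algebra.IsAlgebraic ↥(M ⊔ ⨆ i, F i) L :=
    ⟨fun z => isAlgebraic_algebraMap (⟨z, by rw [hsup]; trivial⟩ : ↥(M ⊔ ⨆ i, F i))⟩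
  have hb := basis_append M F halg hn y hy x hx
  have hle : ∀ i, F i ≤ ⨆ i, F i := le_iSup F
  let x' : Fin n → ↥(⨆ i, F i) := fun i => ⟨(x i : L), hle i (x i).2⟩
  have h1 : AlgebraicIndependent k (fun i => (x i : L)) := by
    have h2 := hb.1.comp (Fin.natAdd d) (Fin.natAdd_injective n d)
    have h3 : Fin.append (fun l => (y l : L)) (fun i => (x i : L)) ∘ Fin.natAdd d =
        fun i => (x i : L) := by
      funext i
      exact Fin.append_right _ _ i
    rwa [h3] at h2
  have h2 : AlgebraicIndependent k x' := h1.of_comp (⨆ i, F i).val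
  have h3 : Algebra.IsAlgebraic (Algebra.adjoin k (Set.range x')) ↥(⨆ i, F i) := by
    refine alg_adjoin fun z => ?_
    have h4 := alg_iSup F x hx z.2
    have heq : (adjoin k (Set.range x')).map (⨆ i, F i).val =
        adjoin k (Set.range fun i => (x i : L)) := by
      rw [adjoin_map, ← Set.range_comp]
      rfl
    rw [← heq] at h4
    let f : adjoin k (Set.range x') →+* (adjoin k (Set.range x')).map (⨆ i, F i).val :=
      (((⨆ i, F i).val : ↥(⨆ i, F i) →+* L).comp
        (algebraMap (adjoin k (Set.range x')) ↥(⨆ i, F i))).codRestrict _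
        fun y => ⟨y, y.2, rfl⟩
    refine h4.of_ringHom_of_comp_eq f ((⨆ i, F i).val : ↥(⨆ i, F i) →+* L) ?_
      (⨆ i, F i).val.injective (by ext y; rfl)
    rintro ⟨_, y, hy, rfl⟩
    exact ⟨⟨y, hy⟩, rfl⟩
  have h4 : IsTranscendenceBasis k x' := h2.isTranscendenceBasis_iff_isAlgebraic.2 h3
  have h5 := h4.lift_cardinalMk_eq_trdeg
  simpa using h5.symm

/-- The quotient is covered by images of `Y`. -/
theorem covered_by (d n : ℕ) (hn : Algebra.trdeg k L = (d + n : ℕ)) (M : IntermediateField k L)
    [Algebra.EssFiniteType k M] (hM : Algebra.trdeg k M = d)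
    (F : Fin n → IntermediateField k L) [hF : ∀ i, IsFF k (F i)] (hsup : M ⊔ (⨆ i, F i) = ⊤)
    (G : Subgroup (L ≃ₐ[k] L)) [Finite G] (σ : G →* Equiv.Perm (Fin n))
    (hσ : ∀ (g : G) i, ∀ z ∈ F i, (g : L ≃ₐ[k] L) z ∈ F (σ g i))
    (B : ∀ i, Set (Place k ↥(F i ⊓ fixedField (stb G σ i)))) (hinv : BdInv G σ F B) :
    IsCoveredBy k (fixedField G) (d + n) (BdQ G σ F B) M := by
  refine ⟨L, inferInstance, inferInstance, ⨆ i, F i, M, (fixedField G).val, ?_,
    ⟨AlgEquiv.refl⟩, ?_, ?_, hn, ?_⟩
  · exact essFiniteType_iff.2 (fg_iSup fun j => essFiniteType_iff.1 (IsFF.ess))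
  · rw [sup_comm]; exact hsup
  · rw [trdeg_iSup d n hn M hM F hsup, hM, add_comm]
    push_cast
    rfl
  · intro w v e he hwv hv
    have h1 : Over (rk (⨆ i, F i) w) v e := ⟨he, hwv⟩
    obtain ⟨j, p, hp, a, ha⟩ := bd_up hσ hinv _ v e h1 hv
    exact not_over (⨆ i, F i) w (inf_le_left.trans (le_iSup F j)) p a ha

/-- Log general type, or covered by images of open curves which are not of log general type, or by
images of `Y`. -/
theorem main (d n : ℕ) (hn : Algebra.trdeg k L = (d + n : ℕ)) (M : IntermediateField k L)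
    [Algebra.EssFiniteType k M] (hM : Algebra.trdeg k M = d)
    (F : Fin n → IntermediateField k L) [hF : ∀ i, IsFF k (F i)] (hsup : M ⊔ (⨆ i, F i) = ⊤)
    (G : Subgroup (L ≃ₐ[k] L)) [Finite G] (σ : G →* Equiv.Perm (Fin n))
    (hσ : ∀ (g : G) i, ∀ z ∈ F i, (g : L ≃ₐ[k] L) z ∈ F (σ g i))
    (B : ∀ i, Set (Place k ↥(F i ⊓ fixedField (stb G σ i)))) (hB : ∀ i, (B i).Finite)
    (hinv : BdInv G σ F B) (h : LogMixedPos G σ F B) :
    KodGe k (fixedField G) (d + n) (BdQ G σ F B) (d + n) ∨
      IsLowCovered k (fixedField G) (d + n) (BdQ G σ F B) ∨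
      (¬ KodTr k M d d ∧ IsCoveredBy k (fixedField G) (d + n) (BdQ G σ F B) M) := by
  by_cases hY : KodTr k M d d
  · by_cases hneg : ∃ i, IsNegative inf_le_left (B i)
    · obtain ⟨i, hi⟩ := hneg
      exact Or.inr (Or.inl (covered_mixed d n hn M hM F hsup G σ hσ B hinv i
        (low_of_negative _ hi)))
    · by_cases hfl : ∃ i, IsFlat inf_le_left (B i)
      · obtain ⟨i, hi⟩ := hfl
        haveI : Finite (stb G σ i) := inferInstance
        exact Or.inr (Or.inl (covered_mixed d n hn M hM F hsup G σ hσ B hinv i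
          (low_of_flat _ (TT_finite (stb G σ i) (F i) (hB i)) hi)))
      · left
        push Not at hneg hfl
        have h3 : {i | ¬ IsFlat inf_le_left (B i)} = Set.univ :=
          Set.eq_univ_of_forall fun i => hfl i
        have halg : Algebra.IsAlgebraic ↥(M ⊔ ⨆ i, F i) L :=
          ⟨fun z => isAlgebraic_algebraMap (⟨z, by rw [hsup]; trivial⟩ : ↥(M ⊔ ⨆ i, F i))⟩
        have h4 := ((abLM d n hn M hM F halg G σ hσ B hB hinv h).1 hneg d hY).2
        rw [h3, Set.ncard_univ, Nat.card_eq_fintype_card, Fintype.card_fin] at h4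
        exact h4
  · exact Or.inr (Or.inr ⟨hY, covered_by d n hn M hM F hsup G σ hσ B hinv⟩)

end

end Pool.Agent.Y115.GT
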